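import Pool.Agent.Helper17.QD.Glue2
import Pool.Agent.Helper68.QC.Cal

/-!
Project QD, module QL EXT: extension of a quasiconformal diffeomorphism of the disc to the circle.
-/

set_option autoImplicit false

open Filter Topology Matrix Set Metric MeasureTheory
open scoped ComplexConjugate ComplexOrder ENNReal

namespace Pool.Agent.Helper79.QL

open Pool.Agent.Helper17.QD Pool.Agent.Helper35.PM
open Pool.Agent.Helper68.QC (nq Bel InvB Intw)
open Pool.Agent.Helper20.QD (Fuch cj IsSU D DD SS dz dzb mob den)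

private theorem ext_rf (z : ℂ) : 1 / conj (1 / conj z) = z := by
  rw [map_div₀, map_one, Complex.conj_conj, one_div_one_div]

private theorem ext_nrf (z : ℂ) : ‖1 / conj z‖ = 1 / ‖z‖ := by
  rw [norm_div, norm_one, RCLike.norm_conj]

private theorem ext_fix {z : ℂ} (h : ‖z‖ = 1) : 1 / conj z = z := by
  have hz : conj z ≠ 0 := by
    intro h0
    have h1 : z = 0 := by simpa using h0
    rw [h1, norm_zero] at h
    exact zero_ne_one h
  rw [div_eq_iff hz, Complex.mul_conj, Complex.normSq_eq_norm_sq, h]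
  norm_num

private theorem ext_fix' {z : ℂ} (hz : z ≠ 0) (h : 1 / conj z = z) : ‖z‖ = 1 := by
  have h1 := ext_nrf z
  rw [h] at h1
  have h0 : 0 < ‖z‖ := norm_pos_iff.2 hz
  rw [eq_div_iff h0.ne'] at h1
  nlinarith

/-- the reflected Beltrami coefficient -/
private theorem ext_mu (k : ℝ) (hk0 : 0 ≤ k) (m : ℂ → ℂ) (hm : ContinuousOn m D)
    (hb : ∀ z ∈ D, ‖m z‖ ≤ k) : ∃ μ : ℂ → ℂ, Bel k μ ∧ (∀ z ∈ D, μ z = m z) ∧
      ∀ z : ℂ, μ (1 / conj z) * conj z ^ 2 = conj (μ z) * z ^ 2 := by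
  classical
  obtain ⟨m0, hm0⟩ : ∃ m0 : ℂ → ℂ, m0 = D.piecewise m (fun _ => 0) := ⟨_, rfl⟩
  have hin : ∀ z ∈ D, m0 z = m z := fun z hz => by
    rw [hm0, piecewise_eq_of_mem _ _ _ hz]
  have hout : ∀ z : ℂ, 1 ≤ ‖z‖ → m0 z = 0 := fun z hz => by
    rw [hm0, piecewise_eq_of_notMem]
    intro h
    rw [mem_ball_zero_iff] at h
    exact absurd h (not_lt.2 hz)
  have hmm : Measurable m0 := by
    rw [hm0]
    exact hm.measurable_piecewise continuousOn_const isOpen_ball.measurableSet
  have hb0 : ∀ z, ‖m0 z‖ ≤ k := by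
    intro z
    rcases lt_or_ge ‖z‖ 1 with h | h
    · have hz : z ∈ D := by simpa using h
      rw [hin z hz]
      exact hb z hz
    · rw [hout z h, norm_zero]
      exact hk0
  have hcj : Measurable (fun z : ℂ => conj z) := Complex.continuous_conj.measurable
  have hz1 : ∀ z ∈ D, z ≠ 0 → m0 (1 / conj z) = 0 := by
    intro z hz h0
    apply hout
    rw [ext_nrf]
    have h1 : 0 < ‖z‖ := norm_pos_iff.2 h0
    rw [mem_ball_zero_iff] at hz
    rw [le_div_iff₀ h1]
    linarith
  refine ⟨fun z => m0 z + conj (m0 (1 / conj z)) * (z ^ 2 / conj z ^ 2), ⟨?_, ?_⟩, ?_, ?_⟩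
  · refine hmm.add ((hcj.comp (hmm.comp ?_)).mul ((measurable_id.pow_const 2).div
      (hcj.pow_const 2)))
    exact measurable_const.div hcj
  · intro z
    change ‖m0 z + conj (m0 (1 / conj z)) * (z ^ 2 / conj z ^ 2)‖ ≤ k
    by_cases h0 : z = 0
    · rw [h0]
      simpa using hb0 0
    · rcases lt_or_ge ‖z‖ 1 with h | h
      · have hz : z ∈ D := by simpa using h
        rw [hz1 z hz h0, map_zero, zero_mul, add_zero]
        exact hb0 z
      · rw [hout z h, zero_add, norm_mul, norm_div, norm_pow, norm_pow, RCLike.norm_conj,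
          RCLike.norm_conj, div_self (pow_ne_zero 2 (norm_ne_zero_iff.2 h0)), mul_one]
        exact hb0 _
  · intro z hz
    change m0 z + conj (m0 (1 / conj z)) * (z ^ 2 / conj z ^ 2) = m z
    by_cases h0 : z = 0
    · rw [h0, ← hin 0 (by simp)]
      simp
    · rw [hz1 z hz h0, map_zero, zero_mul, add_zero, hin z hz]
  · intro z
    change (m0 (1 / conj z) + conj (m0 (1 / conj (1 / conj z))) * ((1 / conj z) ^ 2 /
      conj (1 / conj z) ^ 2)) * conj z ^ 2 =
      conj (m0 z + conj (m0 (1 / conj z)) * (z ^ 2 / conj z ^ 2)) * z ^ 2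
    by_cases h0 : z = 0
    · rw [h0]
      simp
    · have hc0 : conj z ≠ 0 := fun h => h0 (by simpa using h)
      rw [ext_rf]
      simp only [map_add, map_mul, map_div₀, map_pow, Complex.conj_conj, map_one]
      field_simp
      ring

/-- a homeomorphism which commutes with the reflection preserves the disc and the circle -/
private theorem ext_W (W : ℂ ≃ₜ ℂ) (hW0 : W 0 = 0) (hs : ∀ z, W (1 / conj z) = 1 / conj (W z)) :
    BijOn W D D ∧ BijOn W SS SS := by
  have hne : ∀ z, z ≠ 0 → W z ≠ 0 := fun z hz h => hz (W.injective (h.trans hW0.symm))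
  have h1 : ∀ z, ‖z‖ = 1 → ‖W z‖ = 1 := by
    intro z hz
    have hz0 : z ≠ 0 := by
      rintro rfl
      rw [norm_zero] at hz
      exact zero_ne_one hz
    refine ext_fix' (hne z hz0) ?_
    rw [← hs, ext_fix hz]
  have h2 : ∀ z, ‖W z‖ = 1 → ‖z‖ = 1 := by
    intro z hz
    have hz0 : z ≠ 0 := by
      rintro rfl
      rw [hW0, norm_zero] at hz
      exact zero_ne_one hz
    refine ext_fix' hz0 (W.injective ?_)
    rw [hs, ext_fix hz]
  have h3 : ∀ z, ‖z‖ < 1 → ‖W z‖ < 1 := by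
    intro z hz
    by_contra hcon
    rw [not_lt] at hcon
    have hpre : IsPreconnected D := (convex_ball (0 : ℂ) 1).isPreconnected
    have h0D : (0 : ℂ) ∈ D := by simp
    have hzD : z ∈ D := by simpa using hz
    have hiv := hpre.intermediate_value h0D hzD (f := fun x => ‖W x‖)
      (W.continuous.norm.continuousOn)
    have hm : (1 : ℝ) ∈ Icc ‖W 0‖ ‖W z‖ := by
      rw [hW0, norm_zero]
      exact ⟨zero_le_one, hcon⟩
    obtain ⟨y, hy, hy1⟩ := hiv hm
    have hy2 := h2 y hy1
    rw [mem_ball_zero_iff] at hy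
    linarith
  have h4 : ∀ z, 1 < ‖z‖ → 1 < ‖W z‖ := by
    intro z hz
    have hz0 : z ≠ 0 := by
      rintro rfl
      rw [norm_zero] at hz
      linarith
    have hi : ‖1 / conj z‖ < 1 := by
      rw [ext_nrf, div_lt_one (by linarith)]
      exact hz
    have hi2 := h3 _ hi
    rw [hs, ext_nrf] at hi2
    rwa [div_lt_one (norm_pos_iff.2 (hne z hz0))] at hi2
  constructor
  · refine ⟨fun z hz => ?_, W.injective.injOn, fun w hw => ?_⟩
    · rw [mem_ball_zero_iff] at hz ⊢
      exact h3 z hz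
    · refine ⟨W.symm w, ?_, W.apply_symm_apply w⟩
      rw [mem_ball_zero_iff] at hw ⊢
      by_contra hcon
      rw [not_lt] at hcon
      rcases hcon.eq_or_lt with h | h
      · have := h1 _ h.symm
        rw [W.apply_symm_apply] at this
        linarith
      · have := h4 _ h
        rw [W.apply_symm_apply] at this
        linarith
  · refine ⟨fun z hz => ?_, W.injective.injOn, fun w hw => ?_⟩
    · rw [mem_sphere_zero_iff_norm] at hz ⊢
      exact h1 z hz
    · refine ⟨W.symm w, ?_, W.apply_symm_apply w⟩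
      rw [mem_sphere_zero_iff_norm] at hw ⊢
      apply h2
      rw [W.apply_symm_apply]
      exact hw

/-- holomorphic bijections of the disc fixing the centre are rotations -/
private theorem ext_rot (hRIJ : Pool.Agent.Helper20.QD.StRIJ) (h : ℂ → ℂ)
    (hd : DifferentiableOn ℂ h D) (hb : BijOn h D D) (h0 : h 0 = 0) :
    ∃ c : ℂ, ‖c‖ = 1 ∧ ∀ z ∈ D, h z = c * z := by
  obtain ⟨-, -, g, hg, hgh⟩ := hRIJ D h isOpen_ball hd hb.injOn
  rw [hb.image_eq] at hg
  have h0D : (0 : ℂ) ∈ D := by simp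
  have hg0 : g 0 = 0 := by
    have := hgh 0 h0D
    rwa [h0] at this
  have hgD : MapsTo g D (closedBall 0 1) := by
    intro w hw
    obtain ⟨z, hz, rfl⟩ := hb.surjOn hw
    rw [hgh z hz]
    exact ball_subset_closedBall hz
  have hhD : MapsTo h D (closedBall 0 1) := fun z hz => ball_subset_closedBall (hb.mapsTo hz)
  have hn : ∀ z ∈ D, ‖h z‖ = ‖z‖ := by
    intro z hz
    refine le_antisymm ?_ ?_
    · exact Complex.norm_le_norm_of_mapsTo_ball hd hhD h0 (by simpa using hz)
    · have h1 : ‖g (h z)‖ ≤ ‖h z‖ :=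
        Complex.norm_le_norm_of_mapsTo_ball hg hgD hg0 (by simpa using hb.mapsTo hz)
      rwa [hgh z hz] at h1
  have hhalf : (1 / 2 : ℂ) ∈ D := by
    rw [mem_ball_zero_iff]
    norm_num
  have hds : ‖dslope h 0 (1 / 2)‖ = 1 := by
    rw [dslope_of_ne _ (by norm_num), slope_def_field, h0, sub_zero, sub_zero, norm_div,
      hn _ hhalf]
    norm_num
  have haff := Complex.affine_of_mapsTo_ball_of_norm_dslope_eq_div (f := h) (c := 0) (R₁ := 1)
    (R₂ := 1) (z₀ := 1 / 2) hd (by rw [h0]; exact hhD) hhalf (by rw [hds]; norm_num)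
  refine ⟨dslope h 0 (1 / 2), hds, fun z hz => ?_⟩
  have h1 := haff hz
  rw [h1]
  change h 0 + (z - 0) • dslope h 0 (1 / 2) = _
  rw [h0, zero_add, sub_zero, smul_eq_mul, mul_comm]

/-- Module EXT. -/
theorem hEXT (hSUB : Pool.Agent.Helper20.QD.StSUB) (hRIJ : Pool.Agent.Helper20.QD.StRIJ)
    (hEX : Pool.Agent.Helper68.QC.StEX) (hSYC : Pool.Agent.Helper68.QC.StSYC)
    (hFAC : Pool.Agent.Helper68.QC.StFAC) : StEXT := by
  intro k E hk0 hk1 hbij hC1 hdil
  -- the coefficient
  have hdc : ∀ v : ℂ, ContinuousOn (fun z => fderiv ℝ E z v) D := fun v =>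
    (hC1.continuousOn_fderiv_of_isOpen isOpen_ball le_rfl).clm_apply continuousOn_const
  have hcz : ContinuousOn (dz E) D :=
    ((hdc 1).sub (continuousOn_const.mul (hdc Complex.I))).div_const 2
  have hczb : ContinuousOn (dzb E) D :=
    ((hdc 1).add (continuousOn_const.mul (hdc Complex.I))).div_const 2
  obtain ⟨μ, hBel, hμ, hsym⟩ := ext_mu k hk0 (fun z => dzb E z / dz E z)
    (hczb.div hcz fun z hz => (hdil z hz).1) (fun z hz => by
      rw [norm_div, div_le_iff₀ (norm_pos_iff.2 (hdil z hz).1)]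
      exact (hdil z hz).2)
  have hnq := hEX k hk1 μ hBel
  obtain ⟨hWD, hWS⟩ := ext_W (nq μ) hnq.zero (hSYC k hk1 μ hBel (ae_of_all _ hsym))
  have hsol : Pool.Agent.Helper68.QC.Sol μ D E := by
    refine ⟨_, _, Pool.Agent.Helper68.QC.wd_smoothOn isOpen_ball hC1, ?_⟩
    refine (ae_restrict_iff' isOpen_ball.measurableSet).2 (ae_of_all _ fun z hz => ?_)
    change dzb E z = μ z * dz E z
    rw [hμ z hz, div_mul_cancel₀ _ (hdil z hz).1]
  have hg := hFAC k hk1 μ hBel D E isOpen_ball hsol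
  rw [hWD.image_eq] at hg
  have hWD' : BijOn (nq μ).symm D D := by
    refine ⟨fun w hw => ?_, (nq μ).symm.injective.injOn, fun z hz => ?_⟩
    · obtain ⟨z, hz, rfl⟩ := hWD.surjOn hw
      rw [(nq μ).symm_apply_apply]
      exact hz
    · exact ⟨nq μ z, hWD.mapsTo hz, (nq μ).symm_apply_apply z⟩
  have hgb : BijOn (fun ζ => E ((nq μ).symm ζ)) D D := hbij.comp hWD'
  -- normalisation
  have h0D : (0 : ℂ) ∈ D := by simp
  obtain ⟨A, hA, hA0⟩ := hSUB.2.2.1 _ (hgb.mapsTo h0D)
  obtain ⟨hAi, hAd, hAb, hAs, hAinv⟩ := hSUB.1 A hA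
  obtain ⟨-, hAid, hAib, -, hAinv'⟩ := hSUB.1 A⁻¹ hAi
  rw [inv_inv] at hAinv'
  have hder := hSUB.2.2.2.2.1
  have hb : BijOn (fun ζ => mob A⁻¹ (E ((nq μ).symm ζ))) D D := hAib.comp hgb
  have hd : DifferentiableOn ℂ (fun ζ => mob A⁻¹ (E ((nq μ).symm ζ))) D := by
    intro ζ hζ
    have h1 : DifferentiableAt ℂ (mob A⁻¹) (E ((nq μ).symm ζ)) :=
      (hder A⁻¹ _ (hAid _ (ball_subset_closedBall (hgb.mapsTo hζ)))).differentiableAt
    exact h1.comp_differentiableWithinAt ζ (hg ζ hζ)
  have h00 : mob A⁻¹ (E ((nq μ).symm 0)) = 0 := by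
    rw [← hA0]
    exact hAinv 0 (ball_subset_closedBall h0D)
  obtain ⟨c, hc, hcz⟩ := ext_rot hRIJ _ hd hb h00
  have hE : ∀ z ∈ D, mob A (c * nq μ z) = E z := by
    intro z hz
    have h1 := hcz _ (hWD.mapsTo hz)
    simp only [(nq μ).symm_apply_apply] at h1
    rw [← h1]
    exact hAinv' _ (ball_subset_closedBall (hbij.mapsTo hz))
  have hc0 : c ≠ 0 := by
    rintro rfl
    rw [norm_zero] at hc
    exact zero_ne_one hc
  have hcn : ∀ z : ℂ, ‖c * z‖ = ‖z‖ := fun z => by rw [norm_mul, hc, one_mul]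
  have hrS : BijOn (fun z : ℂ => c * z) SS SS := by
    refine ⟨fun z hz => ?_, (mul_right_injective₀ hc0).injOn, fun w hw => ?_⟩
    · rw [mem_sphere_zero_iff_norm] at hz ⊢
      rw [hcn, hz]
    · refine ⟨c⁻¹ * w, ?_, by simp only []; rw [mul_inv_cancel_left₀ hc0]⟩
      rw [mem_sphere_zero_iff_norm] at hw ⊢
      rw [norm_mul, norm_inv, hc, inv_one, one_mul, hw]
  refine ⟨fun z => mob A (c * nq μ z), ⟨?_, ?_, ?_, ?_, ?_⟩, hE⟩
  · intro z hz
    have h1 : c * nq μ z ∈ DD := by
      rw [mem_closedBall_zero_iff] at hz ⊢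
      rw [hcn]
      rcases hz.eq_or_lt with h | h
      · have := hWS.mapsTo (show z ∈ SS by simpa using h)
        rw [mem_sphere_zero_iff_norm] at this
        exact this.le
      · have := hWD.mapsTo (show z ∈ D by simpa using h)
        rw [mem_ball_zero_iff] at this
        exact this.le
    have h2 : ContinuousAt (mob A) (c * nq μ z) := (hder A _ (hAd _ h1)).continuousAt
    have h3 : ContinuousAt (fun z => c * nq μ z) z :=
      (continuous_const.mul (nq μ).continuous).continuousAt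
    exact (ContinuousAt.comp (f := fun z => c * nq μ z) (g := mob A) h2 h3).continuousWithinAt
  · exact hbij.congr fun z hz => (hE z hz).symm
  · exact hAs.comp (hrS.comp hWS)
  · exact hC1.congr hE
  · intro z hz
    have he : (fun z => mob A (c * nq μ z)) =ᶠ[𝓝 z] E := by
      filter_upwards [isOpen_ball.mem_nhds hz] with y hy
      exact hE y hy
    have hf := he.fderiv_eq (𝕜 := ℝ)
    have h1 : dz (fun z => mob A (c * nq μ z)) z = dz E z := by
      unfold Pool.Agent.Helper20.QD.dz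
      rw [hf]
    have h2 : dzb (fun z => mob A (c * nq μ z)) z = dzb E z := by
      unfold Pool.Agent.Helper20.QD.dzb
      rw [hf]
    rw [h1, h2]
    exact hdil z hz

end Pool.Agent.Helper79.QL
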