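import Pool.Agent.Helper17.QD.Glue
import Pool.Agent.Helper16.QCM.M_CUT
import Pool.Agent.Helper45.QCM.M_MO1
import Pool.Agent.Helper45.QCM.M_MO2
import Pool.Agent.Helper10.QCM.M_APX
import Pool.Agent.Helper70.QCM.M_CHR
import Pool.Agent.Helper70.QCM.M_PRW
import Pool.Agent.Helper79.QCM.M_TRI
import Pool.Agent.Helper82.QCM.M_UNW

/-!
Project QD, glue, module INC: if `nq μ` intertwines two Moebius maps then `μ` is invariant.
-/

set_option autoImplicit false

open Filter Topology Matrix Set Metric MeasureTheory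
open scoped ComplexConjugate ComplexOrder ENNReal ContDiff

namespace Pool.Agent.Helper79.QL

open Pool.Agent.Helper68.QC

private theorem inc_det (A : SL) : A 0 0 * A 1 1 - A 0 1 * A 1 0 = 1 := by
  have h := A.det_coe
  rwa [Matrix.det_fin_two] at h

private theorem inc_deriv (A : SL) (z : ℂ) (h : den A z ≠ 0) :
    HasDerivAt (mob A) ((den A z ^ 2)⁻¹) z := by
  have h1 : HasDerivAt (fun z => A 0 0 * z + A 0 1) (A 0 0) z :=
    (((hasDerivAt_id z).const_mul (A 0 0)).add_const (A 0 1)).congr_deriv (mul_one _)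
  have h2 : HasDerivAt (den A) (A 1 0) z :=
    (((hasDerivAt_id z).const_mul (A 1 0)).add_const (A 1 1)).congr_deriv (mul_one _)
  have h3 := h1.div h2 h
  refine h3.congr_deriv ?_
  rw [div_eq_iff (pow_ne_zero 2 h), inv_mul_cancel₀ (pow_ne_zero 2 h)]
  have hd := inc_det A
  unfold den
  linear_combination hd

private theorem inc_inj (A : SL) : InjOn (mob A) {z | den A z ≠ 0} := by
  intro z hz z' hz' h
  have hz0 : den A z ≠ 0 := hz
  have hz0' : den A z' ≠ 0 := hz'
  have h' : (A 0 0 * z + A 0 1) / den A z = (A 0 0 * z' + A 0 1) / den A z' := h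
  rw [div_eq_div_iff hz0 hz0'] at h'
  have hd := inc_det A
  unfold den at h'
  have h2 : (A 0 0 * A 1 1 - A 0 1 * A 1 0) * (z - z') = 0 := by linear_combination h'
  rw [hd, one_mul] at h2
  exact sub_eq_zero.1 h2

private theorem inc_open (A : SL) : IsOpen {z | den A z ≠ 0} := by
  have h : Continuous (den A) := by unfold den; fun_prop
  exact isOpen_ne_fun h continuous_const

private theorem inc_null (A : SL) : volume {z | ¬ den A z ≠ 0} = 0 := by
  apply Set.Finite.measure_zero
  apply Set.Subsingleton.finite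
  intro z hz z' hz'
  have h1 : den A z = 0 := not_not.1 hz
  have h2 : den A z' = 0 := not_not.1 hz'
  unfold den at h1 h2
  have h3 : A 1 0 * (z - z') = 0 := by linear_combination h1 - h2
  rcases mul_eq_zero.1 h3 with h4 | h4
  · exfalso
    rw [h4, zero_mul, zero_add] at h1
    have hd := inc_det A
    rw [h4, h1] at hd
    simp at hd
  · exact sub_eq_zero.1 h4

private theorem inc_holo (A : SL) : DifferentiableOn ℂ (mob A) {z | den A z ≠ 0} :=
  fun z hz => (inc_deriv A z hz).differentiableAt.differentiableWithinAt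

theorem hINC (_hEX : StEX) (_hPRE : StPRE) (_hPOS : StPOS) (hCVM : StCVM) :
    Pool.Agent.Helper17.QD.StINC := by
  intro k hk μ hμ A B hAB
  have hMO1 := Pool.Agent.Helper45.QCM.pMO1
  have hCHR : StCHR := Pool.Agent.Helper70.QCM.pCHR
    (Pool.Agent.Helper10.QCM.pAPX hMO1 (Pool.Agent.Helper45.QCM.pMO2 hMO1)
      Pool.Agent.Helper16.QCM.pCUT) Pool.Agent.Helper79.QCM.pTRI
  obtain ⟨a, b, hwd, hab, -, ha0, -⟩ := hCVM k hk μ hμ
  obtain ⟨hden, hmob, -, -⟩ := hAB
  have hV := inc_open A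
  have hW := inc_open B
  have hmaps : MapsTo (nq μ) {z | den A z ≠ 0} {z | den B z ≠ 0} := by
    intro z hz
    have hz0 : den A z ≠ 0 := hz
    exact fun h => hz0 ((hden z).2 h)
  have hBc : ContDiffOn ℝ ∞ (mob B) {z | den B z ≠ 0} :=
    ((inc_holo B).contDiffOn hW).restrict_scalars ℝ
  have h1 := hCHR {z | den A z ≠ 0} {z | den B z ≠ 0} (nq μ) a b (mob B) hV hW
    (hwd.mono (subset_univ _)) hmaps hBc
  have h2 := Pool.Agent.Helper70.QCM.pPRW univ {z | den A z ≠ 0} (nq μ) a b (mob A) isOpen_univ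
    hV (inc_holo A) (inc_inj A) (mapsTo_univ _ _) (by
      intro z hz
      rw [(inc_deriv A z hz).deriv]
      exact inv_ne_zero (pow_ne_zero 2 hz)) hwd
  obtain ⟨h3, h4⟩ := Pool.Agent.Helper82.QCM.pUNW {z | den A z ≠ 0} _ _ _ _ _ _ hV
    (fun z hz => hmob z hz) h2 h1
  have hae : ∀ᵐ z : ℂ, z ∈ {z | den A z ≠ 0} := by
    rw [ae_iff]
    exact inc_null A
  rw [ae_restrict_iff' hV.measurableSet] at h3 h4
  filter_upwards [h3, h4, hae] with z e1 e2 hz
  have hz0 : den A z ≠ 0 := hz
  have hzB : den B (nq μ z) ≠ 0 := hmaps hz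
  replace e1 := e1 hz
  replace e2 := e2 hz
  rw [dz_holo (inc_deriv B _ hzB).differentiableAt, dzb_holo (inc_deriv B _ hzB).differentiableAt,
    zero_mul, add_zero, (inc_deriv A z hz0).deriv] at e1 e2
  rw [hab, hab] at e2
  have hc : conj (den A z) ≠ 0 := (map_ne_zero _).2 hz0
  have e3 : conj ((den A z ^ 2)⁻¹) = (conj (den A z) ^ 2)⁻¹ := by
    rw [map_inv₀, map_pow]
  rw [e3] at e2
  have e4 : a (mob A z) * (μ (mob A z) * den A z ^ 2) =
      a (mob A z) * (μ z * conj (den A z) ^ 2) := by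
    have e5 : μ (mob A z) * a (mob A z) * (conj (den A z) ^ 2)⁻¹ =
        μ z * (a (mob A z) * (den A z ^ 2)⁻¹) := by
      rw [e2, e1]
      ring
    field_simp at e5
    linear_combination e5
  exact mul_left_cancel₀ (ha0 _) e4

end Pool.Agent.Helper79.QL
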